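import Mathlib
import Pool.Agent.L0h79.FR.LZ
import Pool.Agent.L0h19.FR.Val

/-!
# Project FR, modules LD and LU
-/

set_option autoImplicit false
set_option linter.all false

namespace Pool.Agent.L0h65.FR

open Filter Topology Pool.Agent.TH932.Abs Pool.Agent.TH932.Germs Pool.Agent.TH932.Chi
open Pool.Agent.TH796.AL Pool.Agent.L0h79.FR Pool.Agent.TH914.AL Pool.Agent.L0h19.FR

lemma pre_eq_val {α : Type} (b : ℕ) (hb : 2 ≤ b) (τ : α → ℚ) (w : ℕ → α) (s : ℕ) :
    pre b τ w s = val b τ ((List.range s).map w) := by
  induction s with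
  | zero => simp [pre, val]
  | succ s ih =>
    have h1 : pre b τ w (s + 1) = pre b τ w s + τ (w s) / (b : ℚ) ^ (s + 1) := by
      unfold pre
      rw [Finset.sum_range_succ]
    have hb0 : (b : ℚ) ≠ 0 := by
      have : b ≠ 0 := by omega
      exact_mod_cast this
    rw [h1, ih, List.range_succ, List.map_append, val_append b hb]
    simp only [List.map_cons, List.map_nil, val, List.length_map, List.length_range]
    rw [pow_succ]
    field_simp
    ring

/-- **LD** -/
theorem ld (h : S_LC) : S_LD := by
  classical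
  intro b hb α hα τ w x hx m B e hbe N hL r E' t ht E hE
  have hb2 : (2 : ℝ) ≤ b := by exact_mod_cast hb
  have hb0 : (0 : ℝ) < b := by linarith
  have hlb : 0 < Real.log b := Real.log_pos (by linarith)
  obtain ⟨ρ, P, f, hρ, hf, hP, hgm⟩ := h b hb α hα τ w m B e hbe N hL r E' t
    (fun n => ⟨(ht n).1, (ht n).2.1.le, (ht n).2.2⟩)
  have hval := fun i => val_thm b hb α hα τ 1 m B e hbe N hL (fun n => (List.range (ρ n i)).map w)
    (fun n => by
      rw [List.length_map, List.length_range, one_mul]
      exact hρ n i)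
  have hpre : ∀ i, (fun n => val b τ ((List.range (ρ n i)).map w)) =
      fun n => pre b τ w (ρ n i) := fun i => funext fun n => (pre_eq_val b hb τ w _).symm
  have h1 : (1 : GG) ∈ SS (fun n => (N n : ℝ)) (RS B) (-Real.log b) := by
    have := (filt_S (B := B) hL).alg_mem 1
    rw [map_one] at this
    exact (filt_S (B := B) hL).anti (by linarith) this
  have h2 : ∀ v, (1 : GG) ∈ Sv B (fun n => (N n : ℝ)) v (-Real.log b) := by
    intro v
    have := (filt_v (B := B) hL v).alg_mem 1
    rw [map_one] at this
    exact (filt_v (B := B) hL v).anti (by linarith) this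
  refine ⟨Option (Fin (2 * r + 1)), inferInstance,
    fun j => j.elim 1 (fun i => gm (fun n => pre b τ w (ρ n i))), by simp, ?_, ?_,
    fun j => j.elim f P, fun n => pre b τ w (t n r), ?_, ?_, ?_⟩
  · intro v j
    match j with
    | none => exact h2 v
    | some i =>
      have h3 := (hval i).1 v
      rw [hpre] at h3
      simpa using h3
  · intro j
    match j with
    | none => exact h1
    | some i =>
      have h3 := (hval i).2
      rw [hpre] at h3
      simpa using h3
  · intro j g hg
    match j with
    | none => exact hf g hg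
    | some i => exact hP i g hg
  · rw [hgm, Fintype.sum_option]
    simp
  · obtain ⟨T, hT⟩ : ∃ T : ℝ, ∀ c, |(τ c : ℝ)| ≤ T := by
      have _ := Fintype.ofFinite α
      exact ⟨∑ c, |(τ c : ℝ)|, fun c => Finset.single_le_sum (f := fun c => |(τ c : ℝ)|)
        (fun _ _ => abs_nonneg _) (Finset.mem_univ c)⟩
    filter_upwards [const_le_exp hL T one_pos] with n g3
    have g5 := val_close b hb τ hT ((List.range (t n r)).map w) w x hx (fun i hi => by simp)
    rw [← pre_eq_val b hb] at g5
    rw [List.length_map, List.length_range] at g5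
    refine g5.trans ?_
    have g6 : Real.exp ((E + 1) * N n) ≤ (b : ℝ) ^ (t n r) := by
      have g7 : (b : ℝ) ^ (t n r) = Real.exp ((t n r : ℕ) * Real.log b) := by
        rw [Real.exp_nat_mul, Real.exp_log hb0]
      rw [g7]
      apply Real.exp_le_exp.2
      rw [(ht n).2.1]
      push_cast
      have g9 : (0 : ℝ) ≤ N n := Nat.cast_nonneg _
      nlinarith
    rw [div_le_iff₀ (by positivity)]
    calc T ≤ Real.exp (1 * N n) := g3
      _ = Real.exp (-(E * N n)) * Real.exp ((E + 1) * N n) := by
        rw [← Real.exp_add]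
        ring_nf
      _ ≤ Real.exp (-(E * N n)) * (b : ℝ) ^ (t n r) := by gcongr

/-- **LU** -/
theorem lu (h1 : S_LE) (h2 : S_LD) : S_LU := by
  intro b hb α hα τ w x hx p hw m B e hbe
  obtain ⟨A, hA, hE⟩ := h1 α w p hw
  have hb2 : (2 : ℝ) ≤ b := by exact_mod_cast hb
  have hlb2 : Real.log 2 ≤ Real.log b := Real.log_le_log (by norm_num) hb2
  have hl2 : (0.69 : ℝ) < Real.log 2 := by
    have := Real.log_two_gt_d9
    linarith
  refine ⟨Real.log b, 4 * A + 2, 1, by linarith, by linarith, fun E => ?_⟩
  obtain ⟨r, hr, hN⟩ := hE (2 * (E + 1)) (by omega)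
  have hE0 : (0 : ℝ) ≤ E := Nat.cast_nonneg _
  have hlogE : 0 ≤ Real.log (E + 1) := Real.log_nonneg (by linarith)
  refine ⟨2 * r + 2, ?_, ?_⟩
  · have h3 : Real.log ((2 * (E + 1) : ℕ) : ℝ) = Real.log 2 + Real.log (E + 1) := by
      push_cast
      rw [Real.log_mul (by norm_num) (by positivity)]
    have h4 : Real.log 2 < 1 := by
      have := Real.log_two_lt_d9
      linarith
    rw [h3] at hr
    have h5 : A * (1 + (Real.log 2 + Real.log (E + 1))) ≤ A * (2 * (1 + Real.log (E + 1))) := by
      gcongr
      linarith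
    push_cast
    rw [pow_one]
    nlinarith
  · intro N hN2 hL
    choose t ht using fun n => hN (N n) (by have := hN2 n; omega)
    refine h2 b hb α hα τ w x hx m B e hbe N hL r (2 * (E + 1)) t ht E ?_
    push_cast
    nlinarith

end Pool.Agent.L0h65.FR
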